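import Pool.Agent.CvI.Mul

/-!
# Package CvI-Hom: points with values in the field with `q ^ j` elements (page 7.1)

`L` is a finite extension of the finite field `k` of degree `j`, `R` is infinite (not a field:
`hinf`).
`card_hom`: `#Hom_k(R, L) = ∑_{e ∣ j} e * pn e`. Complete proof: a `k`-algebra homomorphism `φ :
R → L` has kernel a
prime `P`, `P ≠ ⊥` since `L` is finite and `R` infinite. Group by `P`: `Hom_k(R, L)` is the
disjoint union over the
nonzero primes `P` of the `Hom_k(R ⧸ P, L)` (`Ideal.Quotient.liftₐ`, `AlgHom` injective since `R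
⧸ P` is a field).
`R ⧸ P` is a finite field of degree `e = colen P` over `k`. The number of homomorphisms of the
field with `q ^ e`
elements to the field with `q ^ j` elements over `k` is `e` if `e ∣ j` and `0` otherwise. Compare
`Pool/Agent/HyZ/Pts.lean` where the same argument is carried out for `Rg f` (see what can be
copied), and
Mathlib `FiniteField`, `AlgHom.card`, `GaloisField`, `IsGalois.card_aut_eq_finrank`,
`FiniteField.algEquivOfCardEq`... The primes with `e ∤ j` contribute nothing; for `e ∣ j` there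
are `pn e` primes.
-/

set_option autoImplicit false

namespace Pool.Agent.CvI

variable {k R : Type} [Field k] [Finite k] [CommRing R] [IsDedekindDomain R] [Algebra k R]

/-- the homomorphisms with kernel `P` are the embeddings of the quotient -/
private noncomputable def fibE_Hom (L : Type) [Field L] [Algebra k L] (P : Ideal R)
    (hm : P.IsMaximal) :
    {φ : R →ₐ[k] L // RingHom.ker φ.toRingHom = P} ≃ ((R ⧸ P) →ₐ[k] L) where
  toFun φ := Ideal.Quotient.liftₐ P φ.1 (fun a ha => by
    have h := φ.2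
    rw [← h] at ha
    exact ha)
  invFun ψ := ⟨ψ.comp (Ideal.Quotient.mkₐ k P), by
    let _ : Field (R ⧸ P) := Ideal.Quotient.field P
    ext a
    have hi : Function.Injective ψ := ψ.toRingHom.injective
    rw [RingHom.mem_ker]
    show ψ (Ideal.Quotient.mk P a) = 0 ↔ _
    rw [map_eq_zero_iff ψ hi, Ideal.Quotient.eq_zero_iff_mem]⟩
  left_inv φ := by
    apply Subtype.ext
    apply AlgHom.ext
    intro a
    rfl
  right_inv ψ := by
    apply AlgHom.ext
    intro a
    obtain ⟨a, rfl⟩ := Ideal.Quotient.mk_surjective a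
    rfl

omit [Finite k] in
private theorem finite_Hom {E L : Type} [Field E] [Field L] [Algebra k E] [Algebra k L]
    [Finite E] [Finite L] : Finite (E →ₐ[k] L) :=
  Finite.of_injective (fun φ : E →ₐ[k] L => (φ : E → L)) DFunLike.coe_injective

private theorem fib_Hom (hR : FinQ k R) (L : Type) [Field L] [Finite L] [Algebra k L]
    (P : Ideal R) (hP : P.IsPrime) (h0 : P ≠ ⊥) (hd : colen k P ∣ Module.finrank k L) :
    Finite {φ : R →ₐ[k] L // RingHom.ker φ.toRingHom = P} ∧
      Nat.card {φ : R →ₐ[k] L // RingHom.ker φ.toRingHom = P} = colen k P := by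
  have hm : P.IsMaximal := hP.isMaximal h0
  let _ : Field (R ⧸ P) := Ideal.Quotient.field P
  have h1 : Module.Finite k (R ⧸ P) := hR P h0
  have h2 : Finite (R ⧸ P) := Module.finite_of_finite k
  have h3 : Finite ((R ⧸ P) →ₐ[k] L) := finite_Hom
  have h4 : Module.Finite k L := Module.Finite.of_finite
  refine ⟨Finite.of_equiv _ (fibE_Hom L P hm).symm, ?_⟩
  rw [Nat.card_congr (fibE_Hom L P hm)]
  exact FiniteField.natCard_algHom_of_finrank_dvd hd

/-- the primes whose degree divides `j` -/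
private def PrS_Hom (k R : Type) [Field k] [CommRing R] [Algebra k R] (j : ℕ) : Type :=
  {P : Ideal R // P.IsPrime ∧ P ≠ ⊥ ∧ colen k P ∣ j}

omit [Finite k] [IsDedekindDomain R] in
private theorem finPrS_Hom (hR : Fq k R) {j : ℕ} (hj : j ≠ 0) : Finite (PrS_Hom k R j) := by
  have h1 : ∀ e : j.divisors, Finite {I : Ideal R // I ≠ ⊥ ∧ colen k I = e} := fun e =>
    hR.num e
  have h2 : Finite (Σ e : j.divisors, {I : Ideal R // I ≠ ⊥ ∧ colen k I = e}) := inferInstance
  refine Finite.of_injective (fun P : PrS_Hom k R j =>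
    (⟨⟨colen k P.1, Nat.mem_divisors.2 ⟨P.2.2.2, hj⟩⟩, ⟨P.1, P.2.2.1, rfl⟩⟩ :
      Σ e : j.divisors, {I : Ideal R // I ≠ ⊥ ∧ colen k I = e})) ?_
  intro P Q h
  apply Subtype.ext
  have h3 : ∀ x y : (Σ e : j.divisors, {I : Ideal R // I ≠ ⊥ ∧ colen k I = e}),
      x = y → x.2.1 = y.2.1 := by
    rintro x y rfl
    rfl
  exact h3 _ _ h

private theorem ker_Hom (hR : FinQ k R) (hinf : Infinite R) (L : Type) [Field L] [Finite L]
    [Algebra k L] (φ : R →ₐ[k] L) :
    (RingHom.ker φ.toRingHom).IsPrime ∧ RingHom.ker φ.toRingHom ≠ ⊥ ∧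
      colen k (RingHom.ker φ.toRingHom) ∣ Module.finrank k L := by
  have h1 : (RingHom.ker φ.toRingHom).IsPrime := RingHom.ker_isPrime _
  have h2 : RingHom.ker φ.toRingHom ≠ ⊥ := by
    intro h
    have hi : Function.Injective φ.toRingHom := (RingHom.injective_iff_ker_eq_bot _).2 h
    exact not_injective_infinite_finite _ hi
  refine ⟨h1, h2, ?_⟩
  have hm : (RingHom.ker φ.toRingHom).IsMaximal := h1.isMaximal h2
  let _ : Field (R ⧸ RingHom.ker φ.toRingHom) := Ideal.Quotient.field _
  have h3 : Module.Finite k (R ⧸ RingHom.ker φ.toRingHom) := hR _ h2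
  let ψ : (R ⧸ RingHom.ker φ.toRingHom) →ₐ[k] L := Ideal.Quotient.liftₐ _ φ (fun a ha => ha)
  let _ : Algebra (R ⧸ RingHom.ker φ.toRingHom) L := ψ.toRingHom.toAlgebra
  have : IsScalarTower k (R ⧸ RingHom.ker φ.toRingHom) L :=
    IsScalarTower.of_algebraMap_eq' ψ.comp_algebraMap.symm
  unfold colen
  rw [← Module.finrank_mul_finrank k (R ⧸ RingHom.ker φ.toRingHom) L]
  exact dvd_mul_right _ _

theorem card_hom (hR : Fq k R) (hinf : Infinite R) (L : Type) [Field L] [Finite L] [Algebra k L] :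
    Nat.card (R →ₐ[k] L) = nj k R (Module.finrank k L) := by
  classical
  have hL : Module.Finite k L := Module.Finite.of_finite
  set j := Module.finrank k L with hj
  have hj0 : j ≠ 0 := Module.finrank_pos.ne'
  let ke : (R →ₐ[k] L) → PrS_Hom k R j := fun φ =>
    ⟨RingHom.ker φ.toRingHom, ker_Hom hR.fin hinf L φ⟩
  have hfe : ∀ P : PrS_Hom k R j, {φ : R →ₐ[k] L // ke φ = P} ≃
      {φ : R →ₐ[k] L // RingHom.ker φ.toRingHom = P.1} := fun P =>
    Equiv.subtypeEquivRight (fun φ =>
      ⟨fun h => congrArg Subtype.val h, fun h => Subtype.ext h⟩)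
  have hfib : ∀ P : PrS_Hom k R j, Nat.card {φ : R →ₐ[k] L // ke φ = P} = colen k P.1 := by
    intro P
    rw [← (fib_Hom hR.fin L P.1 P.2.1 P.2.2.1 P.2.2.2).2]
    exact Nat.card_congr (hfe P)
  have hff : ∀ P : PrS_Hom k R j, Finite {φ : R →ₐ[k] L // ke φ = P} := by
    intro P
    have := (fib_Hom hR.fin L P.1 P.2.1 P.2.2.1 P.2.2.2).1
    exact Finite.of_equiv _ (hfe P).symm
  have : Finite (PrS_Hom k R j) := finPrS_Hom hR hj0
  have := Fintype.ofFinite (PrS_Hom k R j)
  rw [← Nat.card_congr (Equiv.sigmaFiberEquiv ke), Nat.card_sigma]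
  simp only [hfib]
  rw [nj, ← Finset.sum_fiberwise_of_maps_to (s := (Finset.univ : Finset (PrS_Hom k R j)))
    (t := j.divisors) (g := fun P => colen k P.1)
    (fun P _ => Nat.mem_divisors.2 ⟨P.2.2.2, hj0⟩)]
  refine Finset.sum_congr rfl (fun d hd => ?_)
  have hd' := (Nat.mem_divisors.1 hd).1
  rw [Finset.sum_congr rfl (g := fun _ => d) (fun P hP => (Finset.mem_filter.1 hP).2),
    Finset.sum_const, smul_eq_mul, mul_comm]
  congr 1
  rw [pn, ← Fintype.card_subtype, ← Nat.card_eq_fintype_card]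
  apply Nat.card_congr
  exact ⟨fun P => ⟨P.1.1, P.1.2.1, P.1.2.2.1, P.2⟩,
    fun I => ⟨⟨I.1, I.2.1, I.2.2.1, by rw [I.2.2.2]; exact hd'⟩, I.2.2.2⟩,
    fun P => rfl, fun I => rfl⟩

end Pool.Agent.CvI
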