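import Pool.Agent.CvI.Mul

/-!
# Package CvI-Rec: the recursion from the unique factorisation of ideals (page 7.1)

`an_rec` is the generalisation of `Pool.Agent.HyZ.an_rec` (`HyZ/Fact.lean`) to Dedekind domains
over a field with finitely many ideals of every colength; the proof is the same.
`an_zero`: `an k R 0 = 1`: only the ideal `⊤` has colength `0` (`colen_pos`, `colen_top`).
-/

set_option autoImplicit false

namespace Pool.Agent.CvI

open scoped Classical

variable {k R : Type} [Field k] [CommRing R] [IsDedekindDomain R] [Algebra k R]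

/-- the primes of degree at most `n` -/
private abbrev PTRec (k R : Type) [Field k] [CommRing R] [Algebra k R] (n : ℕ) : Type :=
  {P : Ideal R // P.IsPrime ∧ P ≠ ⊥ ∧ colen k P ≤ n}

omit [IsDedekindDomain R] in
private theorem fin_PT_Rec (hR : Fq k R) (n : ℕ) : Finite (PTRec k R n) := by
  have h : ∀ m, Finite {I : Ideal R // I ≠ ⊥ ∧ colen k I = m} := hR.num
  refine Finite.of_injective (β := Σ m : Fin (n + 1),
    {I : Ideal R // I ≠ ⊥ ∧ colen k I = m})
    (fun I => ⟨⟨colen k I.1, by have := I.2.2.2; omega⟩, ⟨I.1, I.2.2.1, rfl⟩⟩) ?_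
  intro I I' h1
  have h2 := congrArg (fun t : (Σ m : Fin (n + 1),
    {I : Ideal R // I ≠ ⊥ ∧ colen k I = m}) => (t.2.1 : Ideal R)) h1
  exact Subtype.ext h2

private theorem deg_pos_Rec (hR : Fq k R) {P : Ideal R} (hP : P.IsPrime) (h0 : P ≠ ⊥) :
    1 ≤ colen k P := by
  exact colen_pos hR.fin h0 hP.ne_top

private theorem deg_pow_Rec (hR : Fq k R) {P : Ideal R} (h0 : P ≠ ⊥) (e : ℕ) :
    P ^ e ≠ ⊥ ∧ colen k (P ^ e) = e * colen k P := by
  induction e with
  | zero =>
    rw [pow_zero, Ideal.one_eq_top, zero_mul]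
    exact ⟨top_ne_bot, colen_top⟩
  | succ e ih =>
    have h1 : P ^ (e + 1) ≠ ⊥ := by
      have h2 : P ^ (e + 1) ≠ 0 := pow_ne_zero _ (by rwa [Ne, Ideal.zero_eq_bot])
      rwa [Ne, Ideal.zero_eq_bot] at h2
    refine ⟨h1, ?_⟩
    rw [pow_succ, colen_mul hR.fin ih.1 h0, ih.2]
    ring

private theorem step_one_Rec (hR : Fq k R) {a p P : Ideal R} (ha : a ≠ ⊥) (hp0 : p ≠ ⊥)
    (hp : p.IsPrime) (hP0 : P ≠ ⊥) (hP : P.IsPrime) {n : ℕ}
    (hn : colen k (p * a) ≤ n) :
    (∑ e ∈ Finset.Icc 1 n, if P ^ e ∣ p * a then colen k P else 0) =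
      (∑ e ∈ Finset.Icc 1 n, if P ^ e ∣ a then colen k P else 0) +
        if P = p then colen k p else 0 := by
  have hpp : Prime p := (Ideal.prime_iff_isPrime hp0).2 hp
  have hPP : Prime P := (Ideal.prime_iff_isPrime hP0).2 hP
  rw [colen_mul hR.fin hp0 ha] at hn
  have hd := deg_pos_Rec hR hp hp0
  by_cases h : P = p
  · subst h
    rw [if_pos rfl]
    have h1 : ¬ P ^ n ∣ a := by
      rintro ⟨b, hb⟩
      have hb0 : b ≠ ⊥ := by
        rintro rfl
        apply ha
        rw [hb, Ideal.mul_bot]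
      have h2 := deg_pow_Rec hR hP0 n
      have h3 := colen_mul hR.fin h2.1 hb0
      rw [← hb, h2.2] at h3
      have h4 : n * 1 ≤ n * colen k P := Nat.mul_le_mul_left n hd
      omega
    have h2 : ∑ e ∈ Finset.range (n + 1), (if P ^ e ∣ a then colen k P else 0) =
        ∑ e ∈ Finset.range n, (if P ^ e ∣ a then colen k P else 0) := by
      rw [Finset.sum_range_succ, if_neg h1, add_zero]
    have h3 : ∑ e ∈ Finset.range (n + 1), (if P ^ e ∣ a then colen k P else 0) =
        (∑ e ∈ Finset.Icc 1 n, (if P ^ e ∣ a then colen k P else 0)) +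
          colen k P := by
      rw [Finset.range_eq_Ico, Finset.sum_eq_sum_Ico_succ_bot (Nat.succ_pos n), pow_zero,
        if_pos (one_dvd a), add_comm]
      rfl
    rw [← h3, h2]
    refine Finset.sum_nbij' (fun e => e - 1) (fun e => e + 1) ?_ ?_ ?_ ?_ ?_
    · intro e he
      rw [Finset.mem_Icc] at he
      rw [Finset.mem_range]
      omega
    · intro e he
      rw [Finset.mem_range] at he
      rw [Finset.mem_Icc]
      omega
    · intro e he
      rw [Finset.mem_Icc] at he
      omega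
    · intro e _
      simp
    · intro e he
      rw [Finset.mem_Icc] at he
      obtain ⟨m, rfl⟩ : ∃ m, e = m + 1 := ⟨e - 1, by omega⟩
      have h5 : P ^ (m + 1) ∣ P * a ↔ P ^ m ∣ a := by
        rw [pow_succ']
        exact mul_dvd_mul_iff_left hPP.ne_zero
      simp only [h5, Nat.add_sub_cancel]
  · rw [if_neg h, add_zero]
    refine Finset.sum_congr rfl fun e _ => ?_
    have h1 : ¬ P ∣ p := by
      intro h2
      exact h (associated_iff_eq.1 ((hPP.dvd_prime_iff_associated hpp).1 h2))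
    have h5 : P ^ e ∣ p * a ↔ P ^ e ∣ a := by
      constructor
      · exact hPP.pow_dvd_of_dvd_mul_left e h1
      · intro h6
        exact Dvd.dvd.mul_left h6 p
    simp only [h5]

private theorem sum_group_Rec (n : ℕ) (g : ℕ → ℕ) (a : ℕ → ℕ) :
    ∑ e ∈ Finset.Icc 1 n, ∑ d ∈ Finset.Icc 1 n, g d * (if e * d ≤ n then a (n - e * d) else 0) =
      ∑ j ∈ Finset.Icc 1 n, (∑ d ∈ j.divisors, g d) * a (n - j) := by
  have h1 : ∀ j ∈ Finset.Icc 1 n, (∑ d ∈ j.divisors, g d) * a (n - j) =
      ∑ d ∈ Finset.Icc 1 n, if d ∣ j then g d * a (n - j) else 0 := by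
    intro j hj
    rw [Finset.mem_Icc] at hj
    rw [Finset.sum_mul, ← Finset.sum_filter]
    apply Finset.sum_congr _ (fun _ _ => rfl)
    ext d
    rw [Nat.mem_divisors, Finset.mem_filter, Finset.mem_Icc]
    constructor
    · rintro ⟨h, _⟩
      exact ⟨⟨Nat.pos_of_dvd_of_pos h (by omega), (Nat.le_of_dvd (by omega) h).trans hj.2⟩, h⟩
    · rintro ⟨_, h⟩
      exact ⟨h, by omega⟩
  rw [Finset.sum_congr rfl h1, Finset.sum_comm, Finset.sum_comm (s := Finset.Icc 1 n)
    (t := Finset.Icc 1 n) (f := fun j d => if d ∣ j then g d * a (n - j) else 0)]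
  refine Finset.sum_congr rfl fun d hd => ?_
  rw [Finset.mem_Icc] at hd
  have h2 : ∑ e ∈ Finset.Icc 1 n, g d * (if e * d ≤ n then a (n - e * d) else 0) =
      ∑ e ∈ (Finset.Icc 1 n).filter (fun e => e * d ≤ n), g d * a (n - e * d) := by
    rw [Finset.sum_filter]
    refine Finset.sum_congr rfl fun e _ => ?_
    split_ifs <;> simp
  rw [h2, ← Finset.sum_filter]
  refine Finset.sum_nbij' (fun e => e * d) (fun j => j / d) ?_ ?_ ?_ ?_ ?_
  · intro e he
    rw [Finset.mem_filter, Finset.mem_Icc] at he ⊢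
    exact ⟨⟨Nat.mul_pos (by omega) (by omega), he.2⟩, dvd_mul_left d e⟩
  · intro j hj
    rw [Finset.mem_filter, Finset.mem_Icc] at hj ⊢
    obtain ⟨⟨hj1, hj2⟩, c, rfl⟩ := hj
    have hc : 0 < c := by
      rcases Nat.eq_zero_or_pos c with h | h
      · rw [h, mul_zero] at hj1; omega
      · exact h
    rw [Nat.mul_div_cancel_left _ (by omega : 0 < d)]
    refine ⟨⟨hc, ?_⟩, by rw [mul_comm]; exact hj2⟩
    calc c = 1 * c := (one_mul c).symm
      _ ≤ d * c := Nat.mul_le_mul_right c hd.1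
      _ ≤ n := hj2
  · intro e _
    exact Nat.mul_div_cancel _ (by omega : 0 < d)
  · intro j hj
    rw [Finset.mem_filter] at hj
    exact Nat.div_mul_cancel hj.2
  · intro e _
    rfl

/-- the ideals with norm of degree `n` divisible by `Q` -/
private theorem card_dvd_Rec (hR : Fq k R) {Q : Ideal R} (hQ : Q ≠ ⊥) (n : ℕ) :
    Nat.card {I : {I : Ideal R // I ≠ ⊥ ∧ colen k I = n} // Q ∣ I.1} =
      if colen k Q ≤ n then an k R (n - colen k Q) else 0 := by
  have hQ0 : Q ≠ 0 := by rwa [Ne, Ideal.zero_eq_bot]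
  split_ifs with h
  · unfold an
    symm
    apply Nat.card_eq_of_bijective
      (fun J : {J : Ideal R // J ≠ ⊥ ∧ colen k J = n - colen k Q} =>
        (⟨⟨Q * J.1, by
          refine ⟨?_, ?_⟩
          · have h1 : Q * J.1 ≠ 0 := mul_ne_zero hQ0 (by
              have h2 := J.2.1
              rwa [Ne, Ideal.zero_eq_bot])
            rwa [Ne, Ideal.zero_eq_bot] at h1
          · rw [colen_mul hR.fin hQ J.2.1, J.2.2]
            omega⟩, dvd_mul_right Q J.1⟩ :
          {I : {I : Ideal R // I ≠ ⊥ ∧ colen k I = n} // Q ∣ I.1}))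
    constructor
    · intro J J' hJ
      have h1 := congrArg (fun t : {I : {I : Ideal R // I ≠ ⊥ ∧ colen k I = n} //
        Q ∣ I.1} => t.1.1) hJ
      exact Subtype.ext (mul_left_cancel₀ hQ0 h1)
    · rintro ⟨⟨I, hI, hn⟩, J, hJ⟩
      simp only at hJ
      subst hJ
      have hJ0 : J ≠ ⊥ := by
        rintro rfl
        exact hI (Ideal.mul_bot Q)
      refine ⟨⟨J, hJ0, ?_⟩, rfl⟩
      rw [colen_mul hR.fin hQ hJ0] at hn
      omega
  · rw [Nat.card_eq_zero]
    left
    constructor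
    rintro ⟨⟨I, hI, hn⟩, J, hJ⟩
    simp only at hJ
    subst hJ
    have hJ0 : J ≠ ⊥ := by
      rintro rfl
      exact hI (Ideal.mul_bot Q)
    rw [colen_mul hR.fin hQ hJ0] at hn
    omega

private theorem deg_eq_sum_Rec (hR : Fq k R) {I : Ideal R} (hI : I ≠ ⊥) (n : ℕ)
    (hn : colen k I ≤ n) :
    colen k I = ∑ e ∈ Finset.Icc 1 n, ∑ᶠ P : {P : Ideal R // P.IsPrime ∧ P ≠ ⊥ ∧
      colen k P ≤ n}, if P.1 ^ e ∣ I then colen k P.1 else 0 := by
  have hfin : Finite (PTRec k R n) := fin_PT_Rec hR n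
  have : Fintype (PTRec k R n) := Fintype.ofFinite _
  simp only [finsum_eq_sum_of_fintype]
  revert hI hn
  refine UniqueFactorizationMonoid.induction_on_prime I ?_ ?_ ?_
  · intro h0
    exact absurd Ideal.zero_eq_bot h0
  · intro x hx h0 _
    rw [Ideal.isUnit_iff] at hx
    subst hx
    rw [colen_top]
    symm
    refine Finset.sum_eq_zero fun e he => Finset.sum_eq_zero fun P _ => ?_
    rw [Finset.mem_Icc] at he
    rw [if_neg]
    intro h1
    have h2 : P.1 ∣ (⊤ : Ideal R) := (dvd_pow_self P.1 (by omega)).trans h1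
    exact P.2.1.ne_top (top_le_iff.1 (Ideal.le_of_dvd h2))
  · intro a p ha hp ih _ hn
    have ha' : a ≠ ⊥ := by rwa [Ne, Ideal.zero_eq_bot] at ha
    have hp0 : p ≠ ⊥ := by
      have h1 := hp.ne_zero
      rwa [Ne, Ideal.zero_eq_bot] at h1
    have hpi : p.IsPrime := (Ideal.prime_iff_isPrime hp0).1 hp
    have hdm := colen_mul hR.fin hp0 ha'
    have ih' := ih ha' (by omega)
    rw [Finset.sum_comm, Finset.sum_congr rfl (fun P _ =>
      step_one_Rec hR ha' hp0 hpi P.2.2.1 P.2.1 hn), Finset.sum_add_distrib, Finset.sum_comm,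
      ← ih', hdm, add_comm]
    congr 1
    have hin : colen k p ≤ n := by omega
    rw [Finset.sum_eq_single (⟨p, hpi, hp0, hin⟩ : PTRec k R n)]
    · simp
    · intro P _ hP
      rw [if_neg]
      intro h1
      exact hP (Subtype.ext h1)
    · intro h
      exact absurd (Finset.mem_univ _) h

theorem an_zero (hR : Fq k R) : an k R 0 = 1 := by
  unfold an
  rw [Nat.card_eq_one_iff_unique]
  refine ⟨⟨?_⟩, ⟨⟨⊤, top_ne_bot, colen_top⟩⟩⟩
  have h : ∀ I : {I : Ideal R // I ≠ ⊥ ∧ colen k I = 0}, I.1 = ⊤ := by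
    intro I
    by_contra h1
    have h2 := colen_pos hR.fin I.2.1 h1
    rw [I.2.2] at h2
    exact lt_irrefl 0 h2
  intro I J
  exact Subtype.ext ((h I).trans (h J).symm)

theorem an_rec (hR : Fq k R) (n : ℕ) :
    n * an k R n = ∑ j ∈ Finset.Icc 1 n, nj k R j * an k R (n - j) := by
  have hfin : Finite (PTRec k R n) := fin_PT_Rec hR n
  have : Fintype (PTRec k R n) := Fintype.ofFinite _
  have hfI : Finite {I : Ideal R // I ≠ ⊥ ∧ colen k I = n} := hR.num n
  have : Fintype {I : Ideal R // I ≠ ⊥ ∧ colen k I = n} := Fintype.ofFinite _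
  have h1 : n * an k R n = ∑ I : {I : Ideal R // I ≠ ⊥ ∧ colen k I = n},
      ∑ e ∈ Finset.Icc 1 n, ∑ P : PTRec k R n, if P.1 ^ e ∣ I.1 then colen k P.1 else 0 := by
    have h2 : ∀ I : {I : Ideal R // I ≠ ⊥ ∧ colen k I = n},
        ∑ e ∈ Finset.Icc 1 n, ∑ P : PTRec k R n,
          (if P.1 ^ e ∣ I.1 then colen k P.1 else 0) = n := by
      intro I
      have h3 := deg_eq_sum_Rec hR I.2.1 n I.2.2.le
      simp only [finsum_eq_sum_of_fintype] at h3
      rw [← h3, I.2.2]
    rw [Finset.sum_congr rfl (fun I _ => h2 I), Finset.sum_const, Finset.card_univ, smul_eq_mul,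
      mul_comm]
    unfold an
    rw [Nat.card_eq_fintype_card]
  rw [h1, Finset.sum_comm]
  have h4 : ∀ e ∈ Finset.Icc 1 n, ∑ I : {I : Ideal R // I ≠ ⊥ ∧ colen k I = n},
      ∑ P : PTRec k R n, (if P.1 ^ e ∣ I.1 then colen k P.1 else 0) =
      ∑ d ∈ Finset.Icc 1 n, (d * pn k R d) * (if e * d ≤ n then an k R (n - e * d) else 0) := by
    intro e he
    rw [Finset.sum_comm]
    have h5 : ∀ P : PTRec k R n, ∑ I : {I : Ideal R // I ≠ ⊥ ∧ colen k I = n},
        (if P.1 ^ e ∣ I.1 then colen k P.1 else 0) =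
        colen k P.1 * (if e * colen k P.1 ≤ n then
          an k R (n - e * colen k P.1) else 0) := by
      intro P
      have h6 := card_dvd_Rec hR (deg_pow_Rec hR P.2.2.1 e).1 n
      rw [(deg_pow_Rec hR P.2.2.1 e).2] at h6
      rw [← Finset.sum_filter, Finset.sum_const, smul_eq_mul, mul_comm, ← h6,
        Nat.card_eq_fintype_card, Fintype.card_subtype]
    rw [Finset.sum_congr rfl (fun P _ => h5 P)]
    rw [← Finset.sum_fiberwise_of_maps_to (s := Finset.univ) (t := Finset.Icc 1 n)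
      (g := fun P : PTRec k R n => colen k P.1)]
    · refine Finset.sum_congr rfl fun d hd => ?_
      rw [Finset.mem_Icc] at hd
      rw [Finset.sum_congr rfl (g := fun _ => d * (if e * d ≤ n then an k R (n - e * d) else 0))]
      · rw [Finset.sum_const, smul_eq_mul]
        have h7 : (Finset.univ.filter (fun P : PTRec k R n => colen k P.1 = d)).card =
            pn k R d := by
          unfold pn
          rw [← Fintype.card_subtype, ← Nat.card_eq_fintype_card]
          apply Nat.card_congr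
          exact
            { toFun := fun P => ⟨P.1.1, P.1.2.1, P.1.2.2.1, P.2⟩
              invFun := fun I => ⟨⟨I.1, I.2.1, I.2.2.1, by rw [I.2.2.2]; exact hd.2⟩, I.2.2.2⟩
              left_inv := fun P => rfl
              right_inv := fun I => rfl }
        rw [h7]
        ring
      · intro P hP
        rw [(Finset.mem_filter.1 hP).2]
    · intro P _
      rw [Finset.mem_Icc]
      exact ⟨deg_pos_Rec hR P.2.1 P.2.2.1, P.2.2.2⟩
  rw [Finset.sum_congr rfl h4, sum_group_Rec n (fun d => d * pn k R d) (an k R)]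
  rfl

end Pool.Agent.CvI
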