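import Mathlib

/-!
# ALL CURVES: counting ideals of Dedekind domains over finite fields (definitions)

Page with all proofs: /team-store/allcurves_page.md.
-/

set_option autoImplicit false

namespace Pool.Agent.CvI

/-- the colength of an ideal -/
noncomputable def colen (k : Type) {R : Type} [Field k] [CommRing R] [Algebra k R]
    (I : Ideal R) : ℕ :=
  Module.finrank k (R ⧸ I)

/-- the number of the ideals of colength `n` -/
noncomputable def an (k R : Type) [Field k] [CommRing R] [Algebra k R] (n : ℕ) : ℕ :=
  Nat.card {I : Ideal R // I ≠ ⊥ ∧ colen k I = n}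

/-- the number of the primes of degree `n` -/
noncomputable def pn (k R : Type) [Field k] [CommRing R] [Algebra k R] (n : ℕ) : ℕ :=
  Nat.card {I : Ideal R // I.IsPrime ∧ I ≠ ⊥ ∧ colen k I = n}

/-- the number of the points of degree dividing `j` -/
noncomputable def nj (k R : Type) [Field k] [CommRing R] [Algebra k R] (j : ℕ) : ℕ :=
  ∑ e ∈ j.divisors, e * pn k R e

/-- every nonzero ideal has finite colength -/
def FinQ (k R : Type) [Field k] [CommRing R] [Algebra k R] : Prop :=
  ∀ I : Ideal R, I ≠ ⊥ → FiniteDimensional k (R ⧸ I)

/-- every nonzero ideal has finite colength, there are finitely many ideals of given colength -/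
structure Fq (k R : Type) [Field k] [CommRing R] [Algebra k R] : Prop where
  fin : FinQ k R
  num : ∀ n, Finite {I : Ideal R // I ≠ ⊥ ∧ colen k I = n}

end Pool.Agent.CvI
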