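import Pool.Agent.CvI.Defs

/-!
# Package CvI-Mul: the colength is additive (page 4.2)

`R` is a Dedekind domain which is a `k`-algebra, all nonzero ideals have finite dimensional
quotients
(`hR`). Complete proof.

Step: `P` a nonzero prime (so maximal, `Ideal.IsPrime.isMaximal`), `J ≠ ⊥`:
`finrank (R ⧸ P * J) = finrank (R ⧸ P) + finrank (R ⧸ J)`. Choose `x ∈ J`, `x ∉ P * J` (`P * J <
J` as `P ≠ ⊤` and
cancellation). Then `span {x} ⊔ P * J = J`: it contains `P * J`, so it is `Q * J` with `P ≤ Q` by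
to contain
is to divide and cancellation, `Q = P` or `⊤`, and `Q ≠ P`. So `R → J / P J`, `r ↦ r x` is onto;
its kernel
contains `P` and is not `R`, so it is `P`. Hence the kernel of `R ⧸ P * J → R ⧸ J`
(`Ideal.Quotient.factor`) is
`k`-isomorphic to `R ⧸ P`, rank-nullity. (Mathlib has
`Ideal.quotientToQuotientRangePowQuotSucc...` and
`Submodule.cardQuot_mul...` only over `ℤ`; see `Mathlib.RingTheory.Ideal.Norm.AbsNorm` for the
pattern,
`exists_mul_add_mem_pow_succ`.)

Then induction on the factorisation of `I` (`UniqueFactorizationMonoid.induction_on_prime` on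
`Ideal R`):
`I = ⊤` (colength `0`), `I = P * I'`: `colen (P * I' * J) = colen P + colen (I' * J)`.

`colen_top`: `R ⧸ ⊤` is trivial.
`colen_le`: `J ≤ I`, `J ≠ ⊥` gives `colen I ≤ colen J` (surjection).
`colen_eq`: with equality only if `I = J`.
`colen_pos`: `I ≠ ⊤` has positive colength.
-/

set_option autoImplicit false

namespace Pool.Agent.CvI

variable {k R : Type} [Field k] [CommRing R] [IsDedekindDomain R] [Algebra k R]

theorem colen_top : colen k (⊤ : Ideal R) = 0 := by
  unfold colen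
  have : Subsingleton (R ⧸ (⊤ : Ideal R)) := Ideal.Quotient.subsingleton_iff.2 rfl
  exact Module.finrank_zero_of_subsingleton

private theorem sup_Mul {P J : Ideal R} (hP : P.IsMaximal) (hJ : J ≠ ⊥) {x : R} (hx : x ∈ J)
    (hx' : x ∉ P * J) : Ideal.span {x} ⊔ P * J = J := by
  have hle : Ideal.span {x} ⊔ P * J ≤ J :=
    sup_le ((Ideal.span_singleton_le_iff_mem J).2 hx) Ideal.mul_le_right
  obtain ⟨Q, hQ⟩ := Ideal.dvd_iff_le.2 hle
  have h1 : J * Q ∣ J * P := by
    rw [Ideal.dvd_iff_le, ← hQ, mul_comm J P]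
    exact le_sup_right
  have h2 : Q ∣ P := (mul_dvd_mul_iff_left (a := J) hJ).1 h1
  have h3 : P ≤ Q := Ideal.dvd_iff_le.1 h2
  by_cases h4 : Q = ⊤
  · rw [hQ, h4, Ideal.mul_top]
  · have h5 : P = Q := hP.eq_of_le h4 h3
    exfalso
    apply hx'
    rw [mul_comm, h5, ← hQ]
    exact le_sup_left (a := Ideal.span {x}) (Ideal.mem_span_singleton_self x)

private theorem step_Mul (hR : FinQ k R) {P J : Ideal R} (hP : P.IsMaximal) (hP0 : P ≠ ⊥)
    (hJ : J ≠ ⊥) : colen k (P * J) = colen k P + colen k J := by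
  have hPJ : P * J ≠ ⊥ := mul_ne_zero hP0 hJ
  have hlt : P * J < J := by
    refine lt_of_le_of_ne Ideal.mul_le_right fun h0 => ?_
    have h1 : P * J = 1 * J := by rw [one_mul]; exact h0
    have h2 : P = 1 := mul_right_cancel₀ (b := J) hJ h1
    exact hP.ne_top (by rw [h2, Ideal.one_eq_top])
  obtain ⟨x, hx, hx'⟩ := SetLike.exists_of_lt hlt
  have hsup := sup_Mul hP hJ hx hx'
  have hfd : FiniteDimensional k (R ⧸ (P * J)) := hR _ hPJ
  -- the projection
  let pr : (R ⧸ (P * J)) →ₗ[k] (R ⧸ J) :=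
    (Ideal.Quotient.factorₐ k (Ideal.mul_le_right : P * J ≤ J)).toLinearMap
  have hpr : Function.Surjective pr := by
    intro y
    obtain ⟨r, rfl⟩ := Ideal.Quotient.mk_surjective y
    exact ⟨Ideal.Quotient.mk _ r, rfl⟩
  -- multiplication by `x`
  have hcomap : ∀ r ∈ P, r * x ∈ P * J := fun r hr => Ideal.mul_mem_mul hr hx
  let f0 : (R ⧸ P) →ₗ[R] (R ⧸ (P * J)) :=
    Submodule.mapQ P (P * J) (LinearMap.toSpanSingleton R R x) (fun r hr => by
      simpa using hcomap r hr)
  let f : (R ⧸ P) →ₗ[k] (R ⧸ (P * J)) := f0.restrictScalars k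
  have hfx : ∀ r : R, f (Ideal.Quotient.mk P r) = Ideal.Quotient.mk (P * J) (r * x) := by
    intro r
    rfl
  have hinj : Function.Injective f := by
    rw [← LinearMap.ker_eq_bot, LinearMap.ker_eq_bot']
    intro y hy
    obtain ⟨r, rfl⟩ := Ideal.Quotient.mk_surjective y
    rw [hfx, Ideal.Quotient.eq_zero_iff_mem] at hy
    rw [Ideal.Quotient.eq_zero_iff_mem]
    by_contra hr
    -- `P ⊔ span r = ⊤`
    obtain ⟨a, b, hb, hab⟩ := hP.exists_inv hr
    apply hx'
    have h1 : x = a * (r * x) + b * x := by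
      calc x = (a * r + b) * x := by rw [hab, one_mul]
        _ = a * (r * x) + b * x := by ring
    rw [h1]
    exact (P * J).add_mem ((P * J).mul_mem_left a hy) (Ideal.mul_mem_mul hb hx)
  have hrange : LinearMap.range f = LinearMap.ker pr := by
    ext y
    obtain ⟨s, rfl⟩ := Ideal.Quotient.mk_surjective y
    constructor
    · rintro ⟨z, hz⟩
      obtain ⟨r, rfl⟩ := Ideal.Quotient.mk_surjective z
      rw [← hz, hfx, LinearMap.mem_ker]
      change Ideal.Quotient.mk J (r * x) = 0
      rw [Ideal.Quotient.eq_zero_iff_mem]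
      exact J.mul_mem_left r hx
    · intro hs
      rw [LinearMap.mem_ker] at hs
      change Ideal.Quotient.mk J s = 0 at hs
      rw [Ideal.Quotient.eq_zero_iff_mem, ← hsup] at hs
      obtain ⟨a, ha, b, hb, hab⟩ := Submodule.mem_sup.1 hs
      obtain ⟨r, rfl⟩ := Ideal.mem_span_singleton'.1 ha
      refine ⟨Ideal.Quotient.mk P r, ?_⟩
      rw [hfx, Ideal.Quotient.eq, ← hab]
      have : r * x - (r * x + b) = -b := by ring
      rw [this]
      exact (P * J).neg_mem hb
  have h1 := LinearMap.finrank_range_add_finrank_ker pr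
  rw [LinearMap.range_eq_top.2 hpr, finrank_top, ← hrange,
    LinearMap.finrank_range_of_inj hinj] at h1
  unfold colen
  rw [← h1, add_comm]

theorem colen_mul (hR : FinQ k R) {I J : Ideal R} (hI : I ≠ ⊥) (hJ : J ≠ ⊥) :
    colen k (I * J) = colen k I + colen k J := by
  revert hI
  refine UniqueFactorizationMonoid.induction_on_prime
    (P := fun I : Ideal R => I ≠ ⊥ → colen k (I * J) = colen k I + colen k J) I ?_ ?_ ?_
  · intro h
    exact absurd rfl h
  · intro a ha _
    have : a = ⊤ := Ideal.isUnit_iff.1 ha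
    rw [this, Ideal.top_mul, colen_top, zero_add]
  · intro a p ha hp ih _
    have hp0 : p ≠ ⊥ := hp.ne_zero
    have hpm : p.IsMaximal := (Ideal.isPrime_of_prime hp).isMaximal hp0
    have haJ : a * J ≠ ⊥ := mul_ne_zero ha hJ
    rw [mul_assoc, step_Mul hR hpm hp0 haJ, ih ha, step_Mul hR hpm hp0 ha, add_assoc]

theorem colen_le (hR : FinQ k R) {I J : Ideal R} (hJ : J ≠ ⊥) (h : J ≤ I) :
    colen k I ≤ colen k J := by
  have hfd : FiniteDimensional k (R ⧸ J) := hR _ hJ
  exact LinearMap.finrank_le_finrank_of_surjective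
    (f := (Ideal.Quotient.factorₐ k h).toLinearMap) (fun y => by
      obtain ⟨r, rfl⟩ := Ideal.Quotient.mk_surjective y
      exact ⟨Ideal.Quotient.mk _ r, rfl⟩)

theorem colen_eq (hR : FinQ k R) {I J : Ideal R} (hJ : J ≠ ⊥) (h : J ≤ I)
    (he : colen k J ≤ colen k I) : I = J := by
  have hfd : FiniteDimensional k (R ⧸ J) := hR _ hJ
  have hI : I ≠ ⊥ := fun h0 => hJ (by
    rw [h0] at h
    exact le_bot_iff.1 h)
  have hfdI : FiniteDimensional k (R ⧸ I) := hR _ hI
  have hs : Function.Surjective (Ideal.Quotient.factorₐ k h).toLinearMap := fun y => by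
    obtain ⟨r, rfl⟩ := Ideal.Quotient.mk_surjective y
    exact ⟨Ideal.Quotient.mk _ r, rfl⟩
  have heq : Module.finrank k (R ⧸ J) = Module.finrank k (R ⧸ I) :=
    le_antisymm he (colen_le hR hJ h)
  have hi : Function.Injective (Ideal.Quotient.factorₐ k h).toLinearMap :=
    (LinearMap.injective_iff_surjective_of_finrank_eq_finrank heq).2 hs
  refine le_antisymm (fun r hr => ?_) h
  have h1 : (Ideal.Quotient.factorₐ k h).toLinearMap (Ideal.Quotient.mk J r) =
      (Ideal.Quotient.factorₐ k h).toLinearMap (Ideal.Quotient.mk J 0) := by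
    change Ideal.Quotient.mk I r = Ideal.Quotient.mk I 0
    rw [map_zero, Ideal.Quotient.eq_zero_iff_mem]
    exact hr
  have h2 := hi h1
  rw [map_zero, Ideal.Quotient.eq_zero_iff_mem] at h2
  exact h2

theorem colen_pos (hR : FinQ k R) {I : Ideal R} (hI : I ≠ ⊥) (h : I ≠ ⊤) : 0 < colen k I := by
  have hfd : FiniteDimensional k (R ⧸ I) := hR _ hI
  have : Nontrivial (R ⧸ I) := Ideal.Quotient.nontrivial_iff.2 h
  exact Module.finrank_pos

end Pool.Agent.CvI
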